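import Pool.Agent.Lib.MP_3e9be7_al.H51Main
import Pool.Agent.Lib.MP_3e9be7_al.H51Sch

namespace Pool.Agent.Results.MP_3e9be7_al.NotSchattenApproximated

open Pool.Agent.Lib.MP_3e9be7_al Pool.Agent.Lib.MP_3e9be7_al.H51

/-- Maps from Thompson's group `F` to unitary groups that are almost multiplicative in the
Schatten `p`-norm, not normalised by the dimension, almost kill the commutator subgroup. -/
theorem result : commutator ThompsonF ≠ ⊥ ∧ ∃ s : ℕ, ∀ g ∈ commutator ThompsonF,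
    ∃ S : Finset ThompsonF, ∀ p : ℝ, 1 ≤ p → ∃ C : ℝ, ∀ (d : ℕ)
      (φ : ThompsonF → Matrix.unitaryGroup (Fin d) ℂ) (ε : ℝ), 0 ≤ ε →
      (∀ x ∈ S, ∀ y ∈ S, schatten p ((φ (x * y) : Matrix (Fin d) (Fin d) ℂ) -
        (φ x : Matrix (Fin d) (Fin d) ℂ) * (φ y : Matrix (Fin d) (Fin d) ℂ)) ≤ ε) →
      schatten p ((φ g : Matrix (Fin d) (Fin d) ℂ) - 1) ≤ C * ε * Real.log (2 + ε) ^ s := by
  refine ⟨fun h => commutator_ne_bot.2 (Subgroup.mem_bot.1 (h ▸ commutator_ne_bot.1)), ?_⟩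
  obtain ⟨s, hs⟩ := main_general
  refine ⟨s, fun g hg => ?_⟩
  obtain ⟨S, hS⟩ := hs g hg
  refine ⟨S, fun p hp => ?_⟩
  obtain ⟨C, hC⟩ := hS p hp
  exact ⟨C, fun d φ ε => hC (Fin d) _ (schatten_uinorm hp d) φ ε⟩

end Pool.Agent.Results.MP_3e9be7_al.NotSchattenApproximated
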