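import Mathlib
import Pool.Agent.Lib.MP_3e9be7_al.H53Main

set_option autoImplicit false

namespace Pool.Agent.Results.MP_3e9be7_al.Sofic

open Pool.Agent.Lib.MP_3e9be7_al in
/-- Thompson's group `F` is sofic: normalised Hamming length `ℓ σ = |{i | σ i ≠ i}| / n`,
distance `ℓ (σ τ⁻¹)`. -/
theorem result (K : Finset ThompsonF) (ε : ℝ) (hε : 0 < ε) :
    ∃ n : ℕ, 0 < n ∧ ∃ φ : ThompsonF → Equiv.Perm (Fin n),
      (∀ g ∈ K, ∀ h ∈ K,
        (({i | (φ (g * h) * (φ g * φ h)⁻¹) i ≠ i} : Set (Fin n)).ncard : ℝ) / n < ε) ∧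
      (∀ g ∈ K, g ≠ 1 → 1 - ε < (({i | φ g i ≠ i} : Set (Fin n)).ncard : ℝ) / n) := by
  classical
  obtain ⟨n, φ, h1, h2⟩ := Stk.thompsonF_sofic (insert 1 K) ε hε
  have hn : 0 < n := by
    rcases Nat.eq_zero_or_pos n with rfl | h
    · have := h1 1 (Finset.mem_insert_self _ _) 1 (Finset.mem_insert_self _ _)
      simp at this
    · exact h
  have hn' : (0 : ℝ) < n := by exact_mod_cast hn
  have hc : ∀ P : Fin n → Prop, ({i | P i} : Set (Fin n)).ncard = (Finset.univ.filter P).card := by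
    intro P
    rw [← Set.ncard_coe_finset]
    congr 1
    ext i
    simp
  refine ⟨n, hn, φ, fun g hg h hh => ?_, fun g hg g1 => ?_⟩
  · rw [div_lt_iff₀ hn', hc]
    refine lt_of_eq_of_lt ?_ (h1 g (Finset.mem_insert_of_mem hg) h (Finset.mem_insert_of_mem hh))
    congr 1
    refine Finset.card_equiv (φ g * φ h)⁻¹ fun i => ?_
    simp only [Finset.mem_filter, Finset.mem_univ, true_and, Equiv.Perm.mul_apply (φ (g * h))]
    rw [← Equiv.Perm.mul_apply (φ g * φ h), mul_inv_cancel, Equiv.Perm.one_apply]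
  · rw [lt_div_iff₀ hn', hc]
    refine lt_of_lt_of_eq (h2 g (Finset.mem_insert_of_mem hg) g1) ?_
    congr

end Pool.Agent.Results.MP_3e9be7_al.Sofic
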