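import Pool.Agent.Lib.MP_3e9be7_al.Defs
import Pool.Agent.Lib.MP_3e9be7_al.H3Contr
import Pool.Agent.Lib.MP_3e9be7_al.H22Sof

open Pool.Agent.Lib.MP_3e9be7_al

/-- Almost multiplicative maps from Thompson's group `F` to `S_n` whose error is small compared
with `(log n) ^ (-s)`, `s > 2`, almost kill every element of `F'`. -/
theorem Pool.Agent.Results.MP_3e9be7_al.SoficProfileLower.result :
    commutator ThompsonF ≠ ⊥ ∧ ∀ g ∈ commutator ThompsonF,
      ∃ S : Finset ThompsonF, ∀ s : ℝ, 2 < s → ∀ η : ℝ, 0 < η → ∃ c : ℝ, 0 < c ∧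
        ∀ (n : ℕ) (φ : ThompsonF → Equiv.Perm (Fin n)) (ε : ℝ), 0 < ε →
          (∀ a ∈ S, ∀ b ∈ S,
            ((Finset.univ.filter fun i : Fin n => φ (a * b) i ≠ (φ a * φ b) i).card : ℝ) ≤
              ε * n) →
          ε * Real.log n ^ s ≤ c →
          ((Finset.univ.filter fun i : Fin n => φ g i ≠ i).card : ℝ) ≤ η * n := by
  refine ⟨fun h => commutator_ne_bot.2 (Subgroup.mem_bot.1 (h ▸ commutator_ne_bot.1)),
    fun g hg => ?_⟩
  obtain ⟨S, h⟩ := H22.sofic_bound hg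
  refine ⟨S, fun s hs η hη => ?_⟩
  obtain ⟨c, hc, h⟩ := h s hs η hη
  exact ⟨c, hc, fun n φ ε hε hφ hl => h n φ ε hε.le
    (fun a ha b hb => (H22.mv_dist _ _).trans_le (hφ a ha b hb)) hl⟩
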